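import Pool.Agent.Q240.EX.Stm
import Pool.Agent.Q16.CD.Uni
import Pool.Agent.Q280.CD2.Ext

set_option autoImplicit false

/-!
# Project EX, job MainU: the collapse of the form for polynomials of degree at most `2 N`
-/

open Polynomial Filter Topology Finset MeasureTheory
open Pool.Agent.Q240.CD Pool.Agent.Q240.EX
open Pool.Agent.Q280.CD2 (summable_eval lam_add lam_C_mul lam_nonneg)
open Pool.Agent.Q16.CD (split_eval deg_contract deg_contract' Lp_split)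

namespace Pool.Agent.Q211.EX

variable {g M : ℕ → ℝ} {n : ℕ}

theorem gpos' (h : PM g M n) (j : ℕ) : 0 < g j := h.pos.trans_le (h.mono.monotone (Nat.zero_le j))

theorem lam_sq_mul (h : PM g M n) (hn : 1 ≤ n) (p : ℝ[X]) (hp : p.natDegree + 1 ≤ n) :
    g 0 * Lam g M (X * p * p) ≤ Lam g M ((X * p) * (X * p)) := by
  have d1 : (X * p).natDegree ≤ n := by
    refine natDegree_mul_le.trans ?_
    rw [natDegree_X]; omega
  have d2 : (X * p * p).natDegree ≤ 2 * n := by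
    refine natDegree_mul_le.trans ?_
    omega
  have d3 : ((X * p) * (X * p)).natDegree ≤ 2 * n := natDegree_mul_le.trans (by omega)
  unfold Lam
  rw [← tsum_mul_left]
  refine ((summable_eval h _ d2).mul_left _).tsum_le_tsum (fun j => ?_) (summable_eval h _ d3)
  simp only [eval_mul, eval_X]
  have h1 : g 0 ≤ g j := h.mono.monotone (Nat.zero_le j)
  have h2 := gpos' h j
  have h3 : 0 ≤ M j * (g j * p.eval (g j) ^ 2) :=
    mul_nonneg (h.nonneg j) (mul_nonneg h2.le (sq_nonneg _))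
  calc g 0 * (M j * (g j * p.eval (g j) * p.eval (g j)))
      = g 0 * (M j * (g j * p.eval (g j) ^ 2)) := by ring
    _ ≤ g j * (M j * (g j * p.eval (g j) ^ 2)) := mul_le_mul_of_nonneg_right h1 h3
    _ = _ := by ring

theorem lamX_nonneg (h : PM g M n) (p : ℝ[X]) : 0 ≤ Lam g M (X * p * p) := by
  unfold Lam
  refine tsum_nonneg fun j => mul_nonneg (h.nonneg j) ?_
  simp only [eval_mul, eval_X]
  have := gpos' h j
  rw [mul_assoc]
  exact mul_nonneg this.le (mul_self_nonneg _)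

/-- the decomposition `q = q(0) q0 + X h` -/
theorem decomp (h : PM g M n) (hn : 1 ≤ n) {p0 q : ℝ[X]} (hp : Ex g M n 0 p0) (hq : q.natDegree ≤ n) :
    ∃ p : ℝ[X], p.natDegree + 1 ≤ n ∧ q = C (q.eval 0) * p0 + X * p ∧
      Lam g M (q * q) = q.eval 0 ^ 2 * Lam g M (p0 * p0) + Lam g M ((X * p) * (X * p)) := by
  obtain ⟨c, hc⟩ : ∃ c, c = q.eval 0 := ⟨_, rfl⟩
  obtain ⟨s, hs⟩ : ∃ s, s = q - C c * p0 := ⟨_, rfl⟩
  have hs0 : s.eval 0 = 0 := by
    rw [hs, eval_sub, eval_mul, eval_C, hp.2.1, mul_one, hc, sub_self]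
  have hsd : s.natDegree ≤ n := by
    rw [hs]
    exact (natDegree_sub_le_of_le hq ((natDegree_C_mul_le _ _).trans hp.1)).trans (max_self _).le
  have hsX : s = X * divX s := by
    have h1 := divX_mul_X_add s
    rw [coeff_zero_eq_eval_zero, hs0, C_0, add_zero] at h1
    rw [mul_comm, h1]
  have hd : (divX s).natDegree + 1 ≤ n := by
    rw [natDegree_divX_eq_natDegree_tsub_one]
    omega
  have hqs : q = C c * p0 + s := by rw [hs]; ring
  refine ⟨divX s, hd, by rw [← hc, ← hsX]; exact hqs, ?_⟩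
  rw [← hsX, ← hc]
  have e : q * q = (C (c ^ 2) * (p0 * p0) + C (2 * c) * (p0 * s)) + s * s := by
    rw [hqs]
    simp only [C_mul, C_pow]
    rw [show (C 2 : ℝ[X]) = 2 from rfl]
    ring
  have d1 : (C (c ^ 2) * (p0 * p0) : ℝ[X]).natDegree ≤ 2 * n :=
    (natDegree_C_mul_le _ _).trans (natDegree_mul_le.trans (by have := hp.1; omega))
  have d2 : (C (2 * c) * (p0 * s) : ℝ[X]).natDegree ≤ 2 * n :=
    (natDegree_C_mul_le _ _).trans (natDegree_mul_le.trans (by have := hp.1; omega))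
  have d3 : (s * s).natDegree ≤ 2 * n := natDegree_mul_le.trans (by omega)
  rw [e, lam_add h _ _ (natDegree_add_le_of_degree_le d1 d2) d3, lam_add h _ _ d1 d2, lam_C_mul,
    lam_C_mul, hp.2.2 s hsd hs0, mul_zero, add_zero]

theorem sq3 (a b c : ℝ) (x : ℝ) (hx : 0 ≤ x) (ha : 0 ≤ a) (hb : 0 ≤ b) (hc : 0 ≤ c) (h : x ≤ a + b + c) :
    x ^ 2 ≤ 3 * (a ^ 2 + b ^ 2 + c ^ 2) := by
  have h1 : x ^ 2 ≤ (a + b + c) ^ 2 := pow_le_pow_left₀ hx h 2
  nlinarith [sq_nonneg (a - b), sq_nonneg (b - c), sq_nonneg (a - c)]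

/-- **MainU**. -/
theorem mainU (hQ : S_Q0c) (hG : S_Gap2) : S_MainU := by
  intro ι l g N M hF q0 hq0 R ε hε
  have hg0 : 0 < g 0 := hF.pos
  obtain ⟨T, hT⟩ : ∃ T, T = R ^ 2 := ⟨_, rfl⟩
  have hT0 : 0 ≤ T := by rw [hT]; positivity
  obtain ⟨η, hη⟩ : ∃ η, η = Real.sqrt (ε / 6) := ⟨_, rfl⟩
  have hηpos : 0 < η := by rw [hη]; exact Real.sqrt_pos.2 (by positivity)
  have hη2 : η ^ 2 = ε / 6 := by rw [hη]; exact Real.sq_sqrt (by positivity)
  obtain ⟨e2, he2⟩ : ∃ e2, e2 = ε / (6 * (1 + T) ^ 2 * (1 + 1 / g 0)) := ⟨_, rfl⟩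
  have hden : 0 < 6 * (1 + T) ^ 2 * (1 + 1 / g 0) := by positivity
  have he2pos : 0 < e2 := by rw [he2]; positivity
  have hb1 : 3 * (T ^ 2 * e2 / g 0) ≤ ε / 2 := by
    have h1 : e2 * (6 * (1 + T) ^ 2 * (1 + 1 / g 0)) = ε := by rw [he2]; exact div_mul_cancel₀ _ hden.ne'
    have h2 : T ^ 2 * (1 / g 0) ≤ (1 + T) ^ 2 * (1 + 1 / g 0) := by
      have a1 : T ^ 2 ≤ (1 + T) ^ 2 := by nlinarith
      have a2 : 1 / g 0 ≤ 1 + 1 / g 0 := by linarith
      have a3 : 0 < 1 / g 0 := by positivity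
      exact mul_le_mul a1 a2 a3.le (by positivity)
    have h3 : T ^ 2 * e2 / g 0 = e2 * (T ^ 2 * (1 / g 0)) := by ring
    rw [h3]
    have h4 := mul_le_mul_of_nonneg_left h2 he2pos.le
    nlinarith
  have hb2 : 3 * (T * e2) ≤ ε := by
    have h1 : e2 * (6 * (1 + T) ^ 2 * (1 + 1 / g 0)) = ε := by rw [he2]; exact div_mul_cancel₀ _ hden.ne'
    have h2 : T ≤ (1 + T) ^ 2 * (1 + 1 / g 0) := by
      have a3 : 0 < 1 / g 0 := by positivity
      have a1 : T ≤ (1 + T) ^ 2 := by nlinarith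
      nlinarith [mul_nonneg (sq_nonneg (1 + T)) a3.le]
    have h4 := mul_le_mul_of_nonneg_left h2 he2pos.le
    nlinarith
  have hunif : ∀ᶠ i in l, ∀ w : ℂ, ‖w‖ ≤ T → ‖aeval w (q0 i) - GC g w‖ ≤ η := by
    have h1 := hQ l g N M hF q0 hq0
    have h2 := (tendstoLocallyUniformly_iff_forall_isCompact.1 h1) (Metric.closedBall 0 T)
      (isCompact_closedBall 0 T)
    rw [Metric.tendstoUniformlyOn_iff] at h2
    filter_upwards [h2 η hηpos] with i hi w hw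
    have h3 := hi w (by rw [mem_closedBall_zero_iff]; exact hw)
    rw [dist_comm, dist_eq_norm] at h3
    exact h3.le
  have hsep := hF.sep 1 0 0 1 (by norm_num) (by norm_num)
  obtain ⟨B, hsep⟩ := hsep
  filter_upwards [hF.pm, hq0, hunif, hsep, hG l g N M hF q0 hq0 T e2 he2pos] with i hPM hEx hU hS hGap
  have hn : 1 ≤ N i := by
    obtain ⟨e, he, _⟩ := hS
    omega
  intro P hP z hz
  have hR : 0 ≤ R := (norm_nonneg z).trans hz
  obtain ⟨q, hq⟩ : ∃ q, q = contract 2 P := ⟨_, rfl⟩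
  obtain ⟨r, hr⟩ : ∃ r, r = contract 2 (divX P) := ⟨_, rfl⟩
  have hsplit : P = q.comp (X ^ 2) + X * r.comp (X ^ 2) := by rw [hq, hr]; exact split_eval P
  have hqd : q.natDegree ≤ N i := by rw [hq]; exact deg_contract hP
  have hrd' : r = 0 ∨ r.natDegree + 1 ≤ N i := by
    by_cases h0 : r = 0
    · exact Or.inl h0
    · right
      rw [hr] at h0 ⊢
      exact deg_contract' hP h0
  have hrd : r.natDegree + 1 ≤ N i := by
    rcases hrd' with h0 | h0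
    · rw [h0, natDegree_zero]; omega
    · exact h0
  have hLp : Lp g (M i) P = Lam g (M i) (q * q) + Lam g (M i) (X * r * r) := by
    conv_lhs => rw [hsplit]
    exact Lp_split hPM hqd hrd'
  have hP0 : P.eval 0 = q.eval 0 := by
    rw [hsplit]
    simp
  obtain ⟨h, hhd, hqh, hLq⟩ := decomp hPM hn hEx hqd
  obtain ⟨c, hc⟩ : ∃ c, c = q.eval 0 := ⟨_, rfl⟩
  obtain ⟨w, hw⟩ : ∃ w, w = z ^ 2 := ⟨_, rfl⟩
  have hwn : ‖w‖ = ‖z‖ ^ 2 := by rw [hw, norm_pow]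
  have hzT : ‖z‖ ^ 2 ≤ T := by rw [hT]; exact pow_le_pow_left₀ (norm_nonneg z) hz 2
  have hwT : ‖w‖ ≤ T := by rw [hwn]; exact hzT
  have hPz : aeval z P = aeval w q + z * aeval w r := by
    conv_lhs => rw [hsplit]
    rw [map_add, map_mul, aeval_X, aeval_comp, aeval_comp, map_pow, aeval_X, ← hw]
  have hqw : aeval w q = (c : ℂ) * aeval w (q0 i) + w * aeval w h := by
    conv_lhs => rw [hqh]
    rw [map_add, map_mul, map_mul, aeval_X, aeval_C, ← hc]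
    rfl
  have hD : aeval z P - ((P.eval 0 : ℝ) : ℂ) * GC g (z ^ 2) =
      (c : ℂ) * (aeval w (q0 i) - GC g w) + w * aeval w h + z * aeval w r := by
    rw [hPz, hqw, hP0, ← hc, ← hw]
    ring
  rw [hD, hLp]
  obtain ⟨δ, hδ⟩ : ∃ δ, δ = Lam g (M i) (q0 i * q0 i) := ⟨_, rfl⟩
  have hδ0 : 0 ≤ δ := by rw [hδ]; exact lam_nonneg hPM _
  have hGh := hGap h hhd w hwT
  have hGr := hGap r hrd w hwT
  rw [← hδ] at hGh hGr hLq ⊢
  have hS1 := lam_sq_mul hPM hn h hhd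
  have hLX := lamX_nonneg hPM h
  have hLr := lamX_nonneg hPM r
  obtain ⟨A, hA⟩ : ∃ A, A = Lam g (M i) (q * q) := ⟨_, rfl⟩
  obtain ⟨Bh, hBh⟩ : ∃ Bh, Bh = Lam g (M i) (X * h * h) := ⟨_, rfl⟩
  obtain ⟨Br, hBr⟩ : ∃ Br, Br = Lam g (M i) (X * r * r) := ⟨_, rfl⟩
  obtain ⟨S, hSS⟩ : ∃ S, S = Lam g (M i) ((X * h) * (X * h)) := ⟨_, rfl⟩
  rw [← hSS] at hS1
  rw [← hBh] at hS1 hGh hLX
  rw [← hBr] at hGr hLr ⊢
  rw [← hA] at hLq ⊢
  rw [← hc, ← hSS] at hLq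
  have hS0 : 0 ≤ S := le_trans (mul_nonneg hg0.le hLX) hS1
  have hcδ : c ^ 2 * δ ≤ A := by linarith
  have hcδ0 : 0 ≤ c ^ 2 * δ := mul_nonneg (sq_nonneg _) hδ0
  have hSA : S ≤ A := by linarith
  have hA0 : 0 ≤ A := hS0.trans hSA
  have hBhA : Bh ≤ A / g 0 := by
    rw [le_div_iff₀ hg0]
    linarith
  have hn1 : ‖(c : ℂ) * (aeval w (q0 i) - GC g w) + w * aeval w h + z * aeval w r‖ ≤
      |c| * η + T * ‖aeval w h‖ + ‖z‖ * ‖aeval w r‖ := by
    refine (norm_add_le _ _).trans (add_le_add ((norm_add_le _ _).trans (add_le_add ?_ ?_)) ?_)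
    · rw [norm_mul, Complex.norm_real, Real.norm_eq_abs]
      exact mul_le_mul_of_nonneg_left (hU w hwT) (abs_nonneg _)
    · rw [norm_mul]
      exact mul_le_mul_of_nonneg_right hwT (norm_nonneg _)
    · rw [norm_mul]
  have hn2 := sq3 _ _ _ _ (norm_nonneg _) (mul_nonneg (abs_nonneg c) hηpos.le)
    (mul_nonneg hT0 (norm_nonneg (aeval w h))) (mul_nonneg (norm_nonneg z) (norm_nonneg (aeval w r))) hn1
  have hn3 := mul_le_mul_of_nonneg_right hn2 hδ0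
  refine hn3.trans ?_
  rw [mul_pow, mul_pow, mul_pow, sq_abs, hη2]
  have t1 : c ^ 2 * (ε / 6) * δ ≤ ε / 6 * A := by
    calc c ^ 2 * (ε / 6) * δ = ε / 6 * (c ^ 2 * δ) := by ring
      _ ≤ _ := mul_le_mul_of_nonneg_left hcδ (by positivity)
  have t2 : T ^ 2 * ‖aeval w h‖ ^ 2 * δ ≤ (T ^ 2 * e2 / g 0) * A := by
    calc T ^ 2 * ‖aeval w h‖ ^ 2 * δ = T ^ 2 * (‖aeval w h‖ ^ 2 * δ) := by ring
      _ ≤ T ^ 2 * (e2 * Bh) := mul_le_mul_of_nonneg_left hGh (by positivity)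
      _ ≤ T ^ 2 * (e2 * (A / g 0)) :=
        mul_le_mul_of_nonneg_left (mul_le_mul_of_nonneg_left hBhA he2pos.le) (by positivity)
      _ = _ := by ring
  have t3 : ‖z‖ ^ 2 * ‖aeval w r‖ ^ 2 * δ ≤ (T * e2) * Br := by
    calc ‖z‖ ^ 2 * ‖aeval w r‖ ^ 2 * δ = ‖z‖ ^ 2 * (‖aeval w r‖ ^ 2 * δ) := by ring
      _ ≤ T * (e2 * Br) := mul_le_mul hzT hGr (mul_nonneg (sq_nonneg _) hδ0) hT0
      _ = _ := by ring
  have t4 := mul_le_mul_of_nonneg_right hb1 hA0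
  have t5 := mul_le_mul_of_nonneg_right hb2 hLr
  calc 3 * (c ^ 2 * (ε / 6) + T ^ 2 * ‖aeval w h‖ ^ 2 + ‖z‖ ^ 2 * ‖aeval w r‖ ^ 2) * δ
      = 3 * (c ^ 2 * (ε / 6) * δ) + 3 * (T ^ 2 * ‖aeval w h‖ ^ 2 * δ) +
        3 * (‖z‖ ^ 2 * ‖aeval w r‖ ^ 2 * δ) := by ring
    _ ≤ 3 * (ε / 6 * A) + 3 * ((T ^ 2 * e2 / g 0) * A) + 3 * ((T * e2) * Br) := by linarith
    _ ≤ ε / 2 * A + ε / 2 * A + ε * Br := by nlinarith
    _ = ε * (A + Br) := by ring

end Pool.Agent.Q211.EX
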